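import Mathlib
import Pool.Agent.H330.Ramsey

/-!
# Finite Ramsey property of labelled squared distance functions
-/

set_option autoImplicit false

namespace Pool.Agent.H248.ER

open scoped BigOperators

/-- the point of the product space -/
noncomputable def joinE {κ₁ κ₂ : Type} (u : EuclideanSpace ℝ κ₁) (v : EuclideanSpace ℝ κ₂) :
    EuclideanSpace ℝ (κ₁ ⊕ κ₂) := WithLp.toLp 2 (Sum.elim (fun i => u i) (fun i => v i))

theorem dist_sq_eq {κ : Type} [Fintype κ] (u v : EuclideanSpace ℝ κ) :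
    dist u v ^ 2 = ∑ i, (u i - v i) ^ 2 := by
  rw [EuclideanSpace.dist_eq, Real.sq_sqrt (Finset.sum_nonneg fun i _ => sq_nonneg _)]
  refine Finset.sum_congr rfl fun i _ => ?_
  rw [Real.dist_eq, sq_abs]

theorem dist_joinE {κ₁ κ₂ : Type} [Fintype κ₁] [Fintype κ₂] (u u' : EuclideanSpace ℝ κ₁)
    (v v' : EuclideanSpace ℝ κ₂) :
    dist (joinE u v) (joinE u' v') ^ 2 = dist u u' ^ 2 + dist v v' ^ 2 := by
  rw [dist_sq_eq, dist_sq_eq, dist_sq_eq, Fintype.sum_sum_type]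
  rfl

/-- Finite Ramsey property, for `r` colours, of a squared distance function on labels. -/
def FRr {ι : Type} (D : ι → ι → ℝ) (r : ℕ) : Prop :=
  ∃ (κ : Type) (_ : Fintype κ) (P : Type) (_ : Finite P) (p : P → EuclideanSpace ℝ κ),
    ∀ c : P → Fin r, ∃ f : ι → P, (∀ i j, dist (p (f i)) (p (f j)) ^ 2 = D i j) ∧
      ∀ i j, c (f i) = c (f j)

def FR {ι : Type} (D : ι → ι → ℝ) : Prop := ∀ r, FRr D r

theorem FR.diag {ι : Type} {D : ι → ι → ℝ} (h : FR D) (i : ι) : D i i = 0 := by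
  obtain ⟨κ, _, P, _, p, hp⟩ := h 1
  obtain ⟨f, hf, -⟩ := hp (fun _ => 0)
  rw [← hf i i, dist_self]
  norm_num

theorem FR.symm {ι : Type} {D : ι → ι → ℝ} (h : FR D) (i j : ι) : D i j = D j i := by
  obtain ⟨κ, _, P, _, p, hp⟩ := h 1
  obtain ⟨f, hf, -⟩ := hp (fun _ => 0)
  rw [← hf i j, ← hf j i, dist_comm]

theorem FR.comap {ι ι' : Type} {D : ι → ι → ℝ} (h : FR D) (σ : ι' → ι) :
    FR (fun i j => D (σ i) (σ j)) := by
  intro r
  obtain ⟨κ, hκ, P, hP, p, hp⟩ := h r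
  refine ⟨κ, hκ, P, hP, p, fun c => ?_⟩
  obtain ⟨f, hf, hc⟩ := hp c
  exact ⟨fun i => f (σ i), fun i j => hf _ _, fun i j => hc _ _⟩

theorem FR.smul {ι : Type} {D : ι → ι → ℝ} (h : FR D) (t : ℝ) (ht : 0 ≤ t) :
    FR (fun i j => t * D i j) := by
  intro r
  obtain ⟨κ, hκ, P, hP, p, hp⟩ := h r
  refine ⟨κ, hκ, P, hP, fun x => Real.sqrt t • p x, fun c => ?_⟩
  obtain ⟨f, hf, hc⟩ := hp c
  refine ⟨f, fun i j => ?_, hc⟩
  rw [dist_smul₀, mul_pow, hf, Real.norm_eq_abs, sq_abs, Real.sq_sqrt ht]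

/-- finite Ramsey property for an arbitrary finite type of colours -/
theorem FR.colors {ι : Type} {D : ι → ι → ℝ} (h : FR D) (C : Type) [Finite C] :
    ∃ (κ : Type) (_ : Fintype κ) (P : Type) (_ : Finite P) (p : P → EuclideanSpace ℝ κ),
    ∀ c : P → C, ∃ f : ι → P, (∀ i j, dist (p (f i)) (p (f j)) ^ 2 = D i j) ∧
      ∀ i j, c (f i) = c (f j) := by
  obtain ⟨κ, hκ, P, hP, p, hp⟩ := h (Nat.card C)
  refine ⟨κ, hκ, P, hP, p, fun c => ?_⟩
  obtain ⟨f, hf, hc⟩ := hp (fun x => Finite.equivFin C (c x))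
  exact ⟨f, hf, fun i j => (Finite.equivFin C).injective (hc i j)⟩

theorem FR.add {ι : Type} {D₁ D₂ : ι → ι → ℝ} (h₁ : FR D₁) (h₂ : FR D₂) :
    FR (fun i j => D₁ i j + D₂ i j) := by
  intro r
  obtain ⟨κ₂, _, P₂, _, p₂, hp₂⟩ := h₂ r
  obtain ⟨κ₁, _, P₁, _, p₁, hp₁⟩ := h₁.colors (P₂ → Fin r)
  refine ⟨κ₁ ⊕ κ₂, inferInstance, P₁ × P₂, inferInstance, fun x => joinE (p₁ x.1) (p₂ x.2),
    fun c => ?_⟩
  obtain ⟨f₁, hf₁, hc₁⟩ := hp₁ (fun u v => c (u, v))
  rcases isEmpty_or_nonempty ι with hι | ⟨⟨i0⟩⟩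
  · exact ⟨fun i => hι.elim i, fun i => hι.elim i, fun i => hι.elim i⟩
  obtain ⟨f₂, hf₂, hc₂⟩ := hp₂ (fun v => c (f₁ i0, v))
  refine ⟨fun i => (f₁ i, f₂ i), fun i j => ?_, fun i j => ?_⟩
  · rw [dist_joinE, hf₁, hf₂]
  · have h1 := congrFun (hc₁ i i0) (f₂ i)
    have h2 := congrFun (hc₁ j i0) (f₂ j)
    show c (f₁ i, f₂ i) = c (f₁ j, f₂ j)
    rw [show c (f₁ i, f₂ i) = c (f₁ i0, f₂ i) from h1, show c (f₁ j, f₂ j) = c (f₁ i0, f₂ j) from h2]
    exact hc₂ i j

theorem FR.congr {ι : Type} {D D' : ι → ι → ℝ} (h : FR D) (hD : ∀ i j, D i j = D' i j) :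
    FR D' := by
  have : D = D' := by
    funext i j
    exact hD i j
  rwa [← this]

/-- the equilateral simplex -/
theorem FR_eq {ι : Type} [Finite ι] [DecidableEq ι] :
    FR (fun i j : ι => if i = j then (0 : ℝ) else 1) := by
  intro r
  have _ := Fintype.ofFinite ι
  let m := r * Fintype.card ι + 1
  refine ⟨Fin m, inferInstance, Fin m, inferInstance,
    fun x => EuclideanSpace.single x (1 / Real.sqrt 2), fun c => ?_⟩
  obtain ⟨y, hy⟩ := Fintype.exists_lt_card_fiber_of_mul_lt_card (f := c) (n := Fintype.card ι)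
    (by simp [m])
  obtain ⟨S, hS⟩ : ∃ S : Finset (Fin m), S = Finset.univ.filter (fun x => c x = y) := ⟨_, rfl⟩
  have hle : Fintype.card ι ≤ Fintype.card S := by
    rw [Fintype.card_coe, hS]
    exact hy.le
  obtain ⟨e⟩ := Function.Embedding.nonempty_of_card_le hle
  refine ⟨fun i => (e i).1, fun i j => ?_, fun i j => ?_⟩
  · by_cases hij : i = j
    · subst hij
      simp
    · have hne : (e i).1 ≠ (e j).1 := fun h => hij (e.injective (Subtype.ext h))
      show dist (EuclideanSpace.single (e i).1 (1 / Real.sqrt 2))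
        (EuclideanSpace.single (e j).1 (1 / Real.sqrt 2)) ^ 2 = if i = j then (0 : ℝ) else 1
      rw [if_neg hij, dist_sq_eq]
      have h1 : ∀ x : Fin m, ((EuclideanSpace.single (e i).1 (1 / Real.sqrt 2) :
          EuclideanSpace ℝ (Fin m)) x - (EuclideanSpace.single (e j).1 (1 / Real.sqrt 2) :
          EuclideanSpace ℝ (Fin m)) x) ^ 2 = (if x = (e i).1 then (1 / 2 : ℝ) else 0)
          + (if x = (e j).1 then (1 / 2 : ℝ) else 0) := by
        intro x
        have h2 : (1 / Real.sqrt 2) ^ 2 = 1 / 2 := by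
          rw [div_pow, Real.sq_sqrt (by norm_num)]
          norm_num
        by_cases hx : x = (e i).1
        · subst hx
          simp [hne]
        · by_cases hx2 : x = (e j).1
          · subst hx2
            simp [hx]
          · simp [hx, hx2]
      simp_rw [h1]
      rw [Finset.sum_add_distrib, Finset.sum_ite_eq', Finset.sum_ite_eq']
      norm_num
  · have hmem : ∀ x ∈ S, c x = y := by
      intro x hx
      rw [hS, Finset.mem_filter] at hx
      exact hx.2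
    rw [hmem _ (e i).2, hmem _ (e j).2]

/-- compactness -/
theorem compactness {A B : Type} (r : ℕ) (S : B → Set A) (hfin : ∀ b, (S b).Finite)
    (h : ∀ c : A → Fin r, ∃ b, ∀ x ∈ S b, ∀ y ∈ S b, c x = c y) :
    ∃ F : Finset B, ∀ c : A → Fin r, ∃ b ∈ F, ∀ x ∈ S b, ∀ y ∈ S b, c x = c y := by
  classical
  let K : B → Set (A → Fin r) := fun b => {c | ∀ x ∈ S b, ∀ y ∈ S b, c x = c y}ᶜ
  have hK : ∀ b, IsClosed (K b) := by
    intro b
    rw [isClosed_compl_iff]
    have : {c : A → Fin r | ∀ x ∈ S b, ∀ y ∈ S b, c x = c y}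
        = ⋂ x ∈ S b, ⋂ y ∈ S b, {c : A → Fin r | c x = c y} := by
      ext c
      simp
    rw [this]
    refine (hfin b).isOpen_biInter fun x _ => (hfin b).isOpen_biInter fun y _ => ?_
    have hcont : Continuous (fun c : A → Fin r => (c x, c y)) := by fun_prop
    exact (isOpen_discrete {p : Fin r × Fin r | p.1 = p.2}).preimage hcont
  have hempty : (Set.univ : Set (A → Fin r)) ∩ ⋂ b, K b = ∅ := by
    rw [Set.univ_inter, Set.eq_empty_iff_forall_notMem]
    intro c hc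
    obtain ⟨b, hb⟩ := h c
    exact (Set.mem_iInter.1 hc b) hb
  obtain ⟨F, hF⟩ := isCompact_univ.elim_finite_subfamily_closed K hK hempty
  refine ⟨F, fun c => ?_⟩
  by_contra hcon
  push Not at hcon
  have : c ∈ (Set.univ : Set (A → Fin r)) ∩ ⋂ b ∈ F, K b := by
    refine ⟨Set.mem_univ _, Set.mem_iInter₂.2 fun b hb => ?_⟩
    obtain ⟨x, hx, y, hy, hne⟩ := hcon b hb
    exact fun hcb => hne (hcb x hx y hy)
  rw [hF] at this
  exact this

end Pool.Agent.H248.ER
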