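import Pool.Agent.H248.ER.Spread

/-!
# Fattened Euclidean squared distances are Ramsey
-/

set_option autoImplicit false

namespace Pool.Agent.H248.ER

open scoped BigOperators

theorem FR_zero {ι : Type} [Finite ι] : FR (fun _ _ : ι => (0 : ℝ)) := by
  classical
  exact (FR_eq (ι := ι).smul 0 le_rfl).congr fun i j => by simp

theorem FR.sum {ι α : Type} [Finite ι] (s : Finset α) (w : α → ι → ι → ℝ) (h : ∀ a ∈ s, FR (w a)) :
    FR (fun i j => ∑ a ∈ s, w a i j) := by
  classical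
  induction s using Finset.induction_on with
  | empty => simpa using FR_zero (ι := ι)
  | insert a s ha ih =>
    refine ((h a (Finset.mem_insert_self _ _)).add
      (ih fun b hb => h b (Finset.mem_insert_of_mem hb))).congr fun i j => ?_
    rw [Finset.sum_insert ha]

/-- limits of Ramsey squared distances -/
def ClR {ι : Type} (D : ι → ι → ℝ) : Prop :=
  ∀ δ : ℝ, 0 < δ → ∃ D' : ι → ι → ℝ, FR D' ∧ ∀ i j, |D i j - D' i j| ≤ δ

theorem ClR.add {ι : Type} {D₁ D₂ : ι → ι → ℝ} (h₁ : ClR D₁) (h₂ : ClR D₂) :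
    ClR (fun i j => D₁ i j + D₂ i j) := by
  intro δ hδ
  obtain ⟨E₁, hE₁, h1⟩ := h₁ (δ / 2) (by linarith)
  obtain ⟨E₂, hE₂, h2⟩ := h₂ (δ / 2) (by linarith)
  refine ⟨_, hE₁.add hE₂, fun i j => ?_⟩
  rw [show D₁ i j + D₂ i j - (E₁ i j + E₂ i j) = (D₁ i j - E₁ i j) + (D₂ i j - E₂ i j) by ring]
  refine (abs_add_le _ _).trans ?_
  linarith [h1 i j, h2 i j]

theorem ClR.sum {ι α : Type} [Finite ι] (s : Finset α) (w : α → ι → ι → ℝ)
    (h : ∀ a ∈ s, ClR (w a)) : ClR (fun i j => ∑ a ∈ s, w a i j) := by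
  classical
  induction s using Finset.induction_on with
  | empty =>
    intro δ hδ
    refine ⟨_, FR_zero, fun i j => ?_⟩
    simp only [Finset.sum_empty, sub_zero, abs_zero]
    exact hδ.le
  | insert a s ha ih =>
    have := (h a (Finset.mem_insert_self _ _)).add
      (ih fun b hb => h b (Finset.mem_insert_of_mem hb))
    intro δ hδ
    obtain ⟨D', hD', hd⟩ := this δ hδ
    refine ⟨D', hD', fun i j => ?_⟩
    show |∑ b ∈ insert a s, w b i j - D' i j| ≤ δ
    rw [Finset.sum_insert ha]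
    exact hd i j

theorem ClR_line {ι : Type} [Finite ι] (t : ι → ℝ) : ClR (fun i j => (t i - t j) ^ 2) := by
  classical
  have _ := Fintype.ofFinite ι
  intro δ hδ
  obtain ⟨B, hB⟩ : ∃ B : ℝ, ∀ i, |t i| ≤ B := by
    refine ⟨∑ i, |t i|, fun i => ?_⟩
    exact Finset.single_le_sum (f := fun i => |t i|) (fun j _ => abs_nonneg _) (Finset.mem_univ i)
  rcases isEmpty_or_nonempty ι with hι | ⟨⟨i0⟩⟩
  · exact ⟨_, FR_zero, fun i => hι.elim i⟩
  have hB0 : 0 ≤ B := (abs_nonneg _).trans (hB i0)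
  obtain ⟨Q, hQ⟩ := exists_nat_gt (2 * (4 * B + 1) / δ)
  have hQ0 : (0 : ℝ) < Q := lt_of_le_of_lt (by positivity) hQ
  have hQ1 : (1 : ℝ) ≤ Q := by
    have : 0 < Q := by exact_mod_cast hQ0
    exact_mod_cast this
  obtain ⟨m, hm⟩ := exists_nat_gt (2 * (2 * B * Q + 1) ^ 3 / δ)
  have hm0 : (0 : ℝ) < m := lt_of_le_of_lt (by positivity) hm
  let τ : ι → ℕ := fun i => ⌊Q * (t i + B)⌋₊
  have hτ0 : ∀ i, 0 ≤ Q * (t i + B) := by
    intro i
    have := (abs_le.1 (hB i)).1
    exact mul_nonneg hQ0.le (by linarith)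
  have hτ1 : ∀ i, (τ i : ℝ) ≤ Q * (t i + B) := fun i => Nat.floor_le (hτ0 i)
  have hτ2 : ∀ i, Q * (t i + B) < τ i + 1 := fun i => Nat.lt_floor_add_one _
  have hFR := (spread_FR (2 * m) (fun i => Finset.Ico (τ i) (τ i + 2 * m)) (fun i => by
    rw [Nat.card_Ico]; omega)).smul (1 / (2 * m * Q ^ 2)) (by positivity)
  refine ⟨_, hFR, fun i j => ?_⟩
  -- first error
  have h1 : |(∑ x ∈ Finset.Ico (τ i) (τ i + 2 * m) ∪ Finset.Ico (τ j) (τ j + 2 * m),
      (q (2 * m) (Finset.Ico (τ i) (τ i + 2 * m)) x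
        - q (2 * m) (Finset.Ico (τ j) (τ j + 2 * m)) x) ^ 2)
      - 2 * m * ((τ i : ℝ) - τ j) ^ 2| ≤ 2 * |(τ i : ℝ) - τ j| ^ 3 := by
    rcases le_total (τ i) (τ j) with h | h
    · have := tent_bounds m (τ i) (τ j) h
      have h' : (τ i : ℝ) ≤ τ j := by exact_mod_cast h
      rw [abs_sub_comm (τ i : ℝ) (τ j), abs_of_nonneg (by linarith : (0 : ℝ) ≤ (τ j : ℝ) - τ i)]
      rw [show ((τ i : ℝ) - τ j) ^ 2 = ((τ j : ℝ) - τ i) ^ 2 by ring]
      exact this
    · have := tent_bounds m (τ j) (τ i) h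
      have h' : (τ j : ℝ) ≤ τ i := by exact_mod_cast h
      rw [abs_of_nonneg (by linarith : (0 : ℝ) ≤ (τ i : ℝ) - τ j)]
      rw [Finset.union_comm]
      have e : ∀ x, (q (2 * m) (Finset.Ico (τ i) (τ i + 2 * m)) x
        - q (2 * m) (Finset.Ico (τ j) (τ j + 2 * m)) x) ^ 2
        = (q (2 * m) (Finset.Ico (τ j) (τ j + 2 * m)) x
        - q (2 * m) (Finset.Ico (τ i) (τ i + 2 * m)) x) ^ 2 := fun x => by ring
      simp_rw [e]
      exact this
  set Sg := ∑ x ∈ Finset.Ico (τ i) (τ i + 2 * m) ∪ Finset.Ico (τ j) (τ j + 2 * m),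
      (q (2 * m) (Finset.Ico (τ i) (τ i + 2 * m)) x
        - q (2 * m) (Finset.Ico (τ j) (τ j + 2 * m)) x) ^ 2 with hSg
  have hd : |(τ i : ℝ) - τ j| ≤ 2 * B * Q + 1 := by
    have a1 := hτ1 i
    have a2 := hτ2 i
    have a3 := hτ1 j
    have a4 := hτ2 j
    have b1 := abs_le.1 (hB i)
    have b2 := abs_le.1 (hB j)
    rw [abs_le]
    constructor <;> nlinarith
  have h2 : |1 / (2 * m * Q ^ 2) * Sg - ((τ i : ℝ) - τ j) ^ 2 / Q ^ 2| ≤ δ / 2 := by
    have e : 1 / (2 * m * (Q : ℝ) ^ 2) * Sg - ((τ i : ℝ) - τ j) ^ 2 / Q ^ 2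
        = (Sg - 2 * m * ((τ i : ℝ) - τ j) ^ 2) / (2 * m * Q ^ 2) := by
      field_simp
    rw [e, abs_div, abs_of_pos (by positivity : (0 : ℝ) < 2 * m * Q ^ 2), div_le_iff₀ (by positivity)]
    refine h1.trans ?_
    have h3 : |(τ i : ℝ) - τ j| ^ 3 ≤ (2 * B * Q + 1) ^ 3 :=
      pow_le_pow_left₀ (abs_nonneg _) hd 3
    have h4 : 2 * (2 * B * Q + 1) ^ 3 ≤ δ * m := by
      rw [div_lt_iff₀ hδ] at hm
      linarith
    have h5 : δ * m ≤ δ * m * Q ^ 2 := by
      have : (1 : ℝ) ≤ Q ^ 2 := one_le_pow₀ hQ1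
      exact le_mul_of_one_le_right (by positivity) this
    nlinarith
  have h3 : |(t i - t j) ^ 2 - ((τ i : ℝ) - τ j) ^ 2 / Q ^ 2| ≤ δ / 2 := by
    have e : (t i - t j) ^ 2 - ((τ i : ℝ) - τ j) ^ 2 / Q ^ 2
        = ((Q * (t i + B) - Q * (t j + B)) - ((τ i : ℝ) - τ j))
          * ((Q * (t i + B) - Q * (t j + B)) + ((τ i : ℝ) - τ j)) / Q ^ 2 := by
      field_simp
      ring
    rw [e, abs_div, abs_of_pos (by positivity : (0 : ℝ) < Q ^ 2), div_le_iff₀ (by positivity), abs_mul]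
    have a1 := hτ1 i
    have a2 := hτ2 i
    have a3 := hτ1 j
    have a4 := hτ2 j
    have b1 := abs_le.1 (hB i)
    have b2 := abs_le.1 (hB j)
    have c1 : |(Q * (t i + B) - Q * (t j + B)) - ((τ i : ℝ) - τ j)| ≤ 1 := by
      rw [abs_le]
      constructor <;> linarith
    have c2 : |(Q * (t i + B) - Q * (t j + B)) + ((τ i : ℝ) - τ j)| ≤ (4 * B + 1) * Q := by
      rw [abs_le]
      constructor <;> nlinarith
    have c3 : (4 * B + 1) * Q ≤ δ / 2 * Q ^ 2 := by
      rw [div_lt_iff₀ hδ] at hQ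
      nlinarith
    calc _ ≤ 1 * ((4 * B + 1) * Q) := by
          exact mul_le_mul c1 c2 (abs_nonneg _) (by norm_num)
      _ ≤ δ / 2 * Q ^ 2 := by linarith
  have h4 : (t i - t j) ^ 2 - 1 / (2 * m * Q ^ 2) * Sg
      = ((t i - t j) ^ 2 - ((τ i : ℝ) - τ j) ^ 2 / Q ^ 2)
        - (1 / (2 * m * Q ^ 2) * Sg - ((τ i : ℝ) - τ j) ^ 2 / Q ^ 2) := by ring
  show |(t i - t j) ^ 2 - 1 / (2 * m * Q ^ 2) * Sg| ≤ δ
  rw [h4]
  refine (abs_sub _ _).trans ?_
  linarith

/-- Euclidean squared distances are limits of Ramsey ones -/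
theorem ClR_euclid {ι κ : Type} [Finite ι] [Fintype κ] (y : ι → EuclideanSpace ℝ κ) :
    ClR (fun i j => dist (y i) (y j) ^ 2) := by
  have h := ClR.sum (Finset.univ : Finset κ) (fun k i j => (y i k - y j k) ^ 2)
    (fun k _ => ClR_line fun i => y i k)
  intro δ hδ
  obtain ⟨D', hD', hd⟩ := h δ hδ
  refine ⟨D', hD', fun i j => ?_⟩
  show |dist (y i) (y j) ^ 2 - D' i j| ≤ δ
  rw [dist_sq_eq]
  exact hd i j

/-- fattening -/
theorem fatten {ι : Type} [Finite ι] [DecidableEq ι] {D : ι → ι → ℝ} (h : ClR D)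
    (h0 : ∀ i, D i i = 0) (hs : ∀ i j, D i j = D j i) {η : ℝ} (hη : 0 < η) :
    FR (fun i j => D i j + if i = j then 0 else η) := by
  have _ := Fintype.ofFinite ι
  let n : ℝ := Fintype.card ι
  have hn : 0 ≤ n := Nat.cast_nonneg _
  let δ : ℝ := η / (2 * (n ^ 2 + 1))
  have hδ : 0 < δ := by positivity
  have hδ2 : n ^ 2 * δ ≤ η := by
    have : δ * (2 * (n ^ 2 + 1)) = η := by
      simp only [δ]
      field_simp
    nlinarith
  obtain ⟨D', hD', hd⟩ := h δ hδ
  let γ : ι → ι → ℝ := fun k l => if k = l then 0 else (δ - (D k l - D' k l)) / 2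
  have hγ0 : ∀ k l, 0 ≤ γ k l := by
    intro k l
    simp only [γ]
    split_ifs
    · exact le_rfl
    · have := (abs_le.1 (hd k l)).2
      linarith
  have hγ1 : ∀ k l, γ k l ≤ δ := by
    intro k l
    simp only [γ]
    split_ifs
    · exact hδ.le
    · have := (abs_le.1 (hd k l)).1
      linarith
  let Γ : ℝ := ∑ a : ι × ι, γ a.1 a.2
  have hΓ : Γ ≤ η := by
    have h1 : Γ ≤ ∑ a : ι × ι, δ := Finset.sum_le_sum fun a _ => hγ1 _ _
    rw [Finset.sum_const, Finset.card_univ, Fintype.card_prod, nsmul_eq_mul] at h1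
    push_cast at h1
    have h2 : (Fintype.card ι : ℝ) * (Fintype.card ι : ℝ) * δ = n ^ 2 * δ := by
      simp only [n]
      ring
    linarith
  have hE : FR (fun i j : ι => if i = j then (0 : ℝ) else 1) := FR_eq
  let σ : ι × ι → ι → ι := fun a x => if x = a.2 then a.1 else x
  have hsum := FR.sum (Finset.univ : Finset (ι × ι))
    (fun a i j => γ a.1 a.2 * (if σ a i = σ a j then (0 : ℝ) else 1))
    (fun a _ => (hE.comap (σ a)).smul (γ a.1 a.2) (hγ0 _ _))
  refine ((hD'.add hsum).add (hE.smul (η + δ - Γ) (by linarith))).congr fun i j => ?_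
  by_cases hij : i = j
  · subst hij
    have e : ∀ a : ι × ι, γ a.1 a.2 * (if σ a i = σ a i then (0 : ℝ) else 1) = 0 := by
      intro a
      simp
    show D' i i + ∑ a : ι × ι, γ a.1 a.2 * (if σ a i = σ a i then (0 : ℝ) else 1)
      + (η + δ - Γ) * (if i = i then (0 : ℝ) else 1) = D i i + if i = i then 0 else η
    rw [Finset.sum_congr rfl fun a _ => e a, hD'.diag, h0]
    simp
  · have e : ∀ a : ι × ι, γ a.1 a.2 * (if σ a i = σ a j then (0 : ℝ) else 1)
        = γ a.1 a.2 - (if a = (j, i) then γ a.1 a.2 else 0) - (if a = (i, j) then γ a.1 a.2 else 0) := by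
      rintro ⟨k, l⟩
      have hcase : σ (k, l) i = σ (k, l) j ↔ ((k, l) = (j, i) ∨ (k, l) = (i, j)) := by
        simp only [σ, Prod.mk.injEq]
        by_cases h1 : i = l
        · by_cases h2 : j = l
          · exact absurd (h1.trans h2.symm) hij
          · rw [if_pos h1, if_neg h2]
            constructor
            · intro h3
              exact Or.inl ⟨h3, h1.symm⟩
            · rintro (⟨h3, -⟩ | ⟨-, h3⟩)
              · exact h3
              · exact absurd h3.symm h2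
        · by_cases h2 : j = l
          · rw [if_neg h1, if_pos h2]
            constructor
            · intro h3
              exact Or.inr ⟨h3.symm, h2.symm⟩
            · rintro (⟨-, h3⟩ | ⟨h3, -⟩)
              · exact absurd h3.symm h1
              · exact h3.symm
          · rw [if_neg h1, if_neg h2]
            constructor
            · intro h3
              exact absurd h3 hij
            · rintro (⟨-, h3⟩ | ⟨-, h3⟩)
              · exact absurd h3.symm h1
              · exact absurd h3.symm h2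
      by_cases h1 : (k, l) = (j, i)
      · have h2 : (k, l) ≠ (i, j) := by
          rw [h1]
          intro h3
          exact hij (Prod.mk.inj h3).2
        rw [if_pos (hcase.2 (Or.inl h1)), if_pos h1, if_neg h2]
        ring
      · by_cases h2 : (k, l) = (i, j)
        · rw [if_pos (hcase.2 (Or.inr h2)), if_neg h1, if_pos h2]
          ring
        · rw [if_neg (fun h3 => (hcase.1 h3).elim h1 h2), if_neg h1, if_neg h2]
          ring
    have hS : ∑ a : ι × ι, γ a.1 a.2 * (if σ a i = σ a j then (0 : ℝ) else 1)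
        = Γ - γ j i - γ i j := by
      rw [Finset.sum_congr rfl fun a _ => e a, Finset.sum_sub_distrib, Finset.sum_sub_distrib,
        Finset.sum_ite_eq', Finset.sum_ite_eq']
      simp only [Finset.mem_univ, if_true]
      rfl
    show D' i j + ∑ a : ι × ι, γ a.1 a.2 * (if σ a i = σ a j then (0 : ℝ) else 1)
      + (η + δ - Γ) * (if i = j then (0 : ℝ) else 1) = D i j + if i = j then 0 else η
    rw [hS, if_neg hij, if_neg hij]
    have g1 : γ i j = (δ - (D i j - D' i j)) / 2 := if_neg hij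
    have g2 : γ j i = (δ - (D j i - D' j i)) / 2 := if_neg (Ne.symm hij)
    rw [g1, g2, hs j i, hD'.symm j i]
    ring

end Pool.Agent.H248.ER
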