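import Pool.Agent.H248.ER.Basic

/-!
# Extending isometries between finite sets
-/

set_option autoImplicit false

namespace Pool.Agent.H248.ER

open scoped BigOperators

theorem exists_linIso {V I : Type} [NormedAddCommGroup V] [InnerProductSpace ℝ V]
    [FiniteDimensional ℝ V] [Fintype I] [DecidableEq I] (u v : I → V)
    (h : ∀ i j, inner ℝ (u i) (u j) = inner ℝ (v i) (v j)) :
    ∃ T : V →ₗᵢ[ℝ] V, ∀ i, T (u i) = v i := by
  let U : (I → ℝ) →ₗ[ℝ] V := Fintype.linearCombination ℝ u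
  let W : (I → ℝ) →ₗ[ℝ] V := Fintype.linearCombination ℝ v
  have hU : ∀ x, U x = ∑ i, x i • u i := fun x => Fintype.linearCombination_apply ℝ u x
  have hW : ∀ x, W x = ∑ i, x i • v i := fun x => Fintype.linearCombination_apply ℝ v x
  have hnorm : ∀ x, ‖W x‖ = ‖U x‖ := by
    intro x
    have h1 : ‖W x‖ ^ 2 = ‖U x‖ ^ 2 := by
      rw [← real_inner_self_eq_norm_sq, ← real_inner_self_eq_norm_sq, hU, hW]
      simp only [sum_inner, inner_sum, inner_smul_left, inner_smul_right, h]
    exact (pow_left_inj₀ (norm_nonneg _) (norm_nonneg _) two_ne_zero).1 h1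
  obtain ⟨s, hs⟩ := U.rangeRestrict.exists_rightInverse_of_surjective
    (LinearMap.range_eq_top.2 U.surjective_rangeRestrict)
  have hs' : ∀ y : LinearMap.range U, U (s y) = y := by
    intro y
    have := LinearMap.congr_fun hs y
    exact congrArg Subtype.val this
  let L : LinearMap.range U →ₗᵢ[ℝ] V := ⟨W ∘ₗ s, fun y => by
    show ‖W (s y)‖ = ‖y‖
    rw [hnorm, hs']
    rfl⟩
  refine ⟨L.extend, fun i => ?_⟩
  have hui : U (Pi.single i 1) = u i := by
    rw [hU]
    simp [Pi.single_apply]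
  have hvi : W (Pi.single i 1) = v i := by
    rw [hW]
    simp [Pi.single_apply]
  let y : LinearMap.range U := ⟨u i, ⟨Pi.single i 1, hui⟩⟩
  have h1 : L.extend (u i) = L y := L.extend_apply y
  rw [h1]
  have h2 : W (s y - Pi.single i 1) = 0 := by
    rw [← norm_eq_zero, hnorm, map_sub, hs', hui, sub_self, norm_zero]
  rw [map_sub, hvi, sub_eq_zero] at h2
  exact h2

theorem joinE_sub {κ₁ κ₂ : Type} (u u' : EuclideanSpace ℝ κ₁) (v v' : EuclideanSpace ℝ κ₂) :
    joinE u v - joinE u' v' = joinE (u - u') (v - v') := by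
  ext i
  cases i <;> rfl

theorem dist_joinE_left {κ₁ κ₂ : Type} [Fintype κ₁] [Fintype κ₂] (u u' : EuclideanSpace ℝ κ₁)
    (v : EuclideanSpace ℝ κ₂) : dist (joinE u v) (joinE u' v) = dist u u' := by
  have h := dist_joinE u u' v v
  rw [dist_self, zero_pow two_ne_zero, add_zero] at h
  exact (pow_left_inj₀ dist_nonneg dist_nonneg two_ne_zero).1 h

theorem dist_joinE_right {κ₁ κ₂ : Type} [Fintype κ₁] [Fintype κ₂] (u : EuclideanSpace ℝ κ₁)
    (v v' : EuclideanSpace ℝ κ₂) : dist (joinE u v) (joinE u v') = dist v v' := by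
  have h := dist_joinE u u v v'
  rw [dist_self, zero_pow two_ne_zero, zero_add] at h
  exact (pow_left_inj₀ dist_nonneg dist_nonneg two_ne_zero).1 h

theorem ext_points {I J κ κ' : Type} [Finite I] [Fintype κ] [Fintype κ'] (i0 : I)
    (a : I → EuclideanSpace ℝ κ) (a' : J → EuclideanSpace ℝ κ) (b : I → EuclideanSpace ℝ κ')
    (h : ∀ i j, dist (a i) (a j) = dist (b i) (b j)) :
    ∃ b' : J → EuclideanSpace ℝ (κ' ⊕ κ), (∀ j k, dist (b' j) (b' k) = dist (a' j) (a' k)) ∧
      ∀ j i, dist (b' j) (joinE (b i) 0) = dist (a' j) (a i) := by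
  classical
  have _ := Fintype.ofFinite I
  let A : I → EuclideanSpace ℝ (κ' ⊕ κ) := fun i => joinE 0 (a i)
  let B : I → EuclideanSpace ℝ (κ' ⊕ κ) := fun i => joinE (b i) 0
  have hAB : ∀ i j, dist (A i) (A j) = dist (B i) (B j) := by
    intro i j
    simp only [A, B]
    rw [dist_joinE_left, dist_joinE_right, h]
  obtain ⟨T, hT⟩ := exists_linIso (fun i => A i - A i0) (fun i => B i - B i0) (by
    intro i j
    have e : ∀ x y : EuclideanSpace ℝ (κ' ⊕ κ), inner ℝ x y = (‖x‖ ^ 2 + ‖y‖ ^ 2 - ‖x - y‖ ^ 2) / 2 := by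
      intro x y
      rw [norm_sub_sq_real]
      ring
    rw [e, e]
    have e2 : ∀ (C : I → EuclideanSpace ℝ (κ' ⊕ κ)), C i - C i0 - (C j - C i0) = C i - C j := by
      intro C
      abel
    rw [e2 A, e2 B, ← dist_eq_norm, ← dist_eq_norm, ← dist_eq_norm, ← dist_eq_norm,
      ← dist_eq_norm, ← dist_eq_norm, hAB, hAB, hAB])
  refine ⟨fun j => B i0 + T (joinE 0 (a' j) - A i0), fun j k => ?_, fun j i => ?_⟩
  · rw [dist_add_left, T.isometry.dist_eq, dist_sub_right, dist_joinE_right]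
  · have h1 : joinE (b i) 0 = B i0 + T (A i - A i0) := by
      rw [hT]
      simp [B]
    rw [h1, dist_add_left, T.isometry.dist_eq, dist_sub_right]
    exact dist_joinE_right _ _ _

end Pool.Agent.H248.ER
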