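import Pool.Agent.H248.ER.Close
import Pool.Agent.H248.ER.Ext

/-!
# Adding one point off the hyperplane
-/

set_option autoImplicit false

namespace Pool.Agent.H248.ER

open scoped BigOperators

/-- the squared distances after adding one point -/
noncomputable def DZ {X κ₀ : Type} [Fintype κ₀] (x : X → EuclideanSpace ℝ κ₀)
    (z : EuclideanSpace ℝ κ₀) (η : ℝ) : Option X → Option X → ℝ
  | none, none => 0
  | none, some i => dist z (x i) ^ 2 + η
  | some i, none => dist z (x i) ^ 2 + η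
  | some i, some j => dist (x i) (x j) ^ 2

theorem dist_single_sq {Q : Type} [Fintype Q] [DecidableEq Q] (q q' : Q) (η : ℝ) (hη : 0 ≤ η) :
    dist (EuclideanSpace.single q (Real.sqrt η)) (EuclideanSpace.single q' (Real.sqrt η)) ^ 2
      = if q = q' then 0 else 2 * η := by
  by_cases h : q = q'
  · subst h
    simp
  · rw [if_neg h, dist_sq_eq]
    have h1 : ∀ x : Q, ((EuclideanSpace.single q (Real.sqrt η) : EuclideanSpace ℝ Q) x
        - (EuclideanSpace.single q' (Real.sqrt η) : EuclideanSpace ℝ Q) x) ^ 2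
        = (if x = q then η else 0) + (if x = q' then η else 0) := by
      intro x
      by_cases hx : x = q
      · subst hx
        simp [h, Real.sq_sqrt hη]
      · by_cases hx2 : x = q'
        · subst hx2
          simp [hx, Real.sq_sqrt hη]
        · simp [hx, hx2]
    simp_rw [h1]
    rw [Finset.sum_add_distrib, Finset.sum_ite_eq', Finset.sum_ite_eq']
    simp only [Finset.mem_univ, if_true]
    ring

theorem dist_single_zero_sq {Q : Type} [Fintype Q] [DecidableEq Q] (q : Q) (η : ℝ) (hη : 0 ≤ η) :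
    dist (0 : EuclideanSpace ℝ Q) (EuclideanSpace.single q (Real.sqrt η)) ^ 2 = η := by
  rw [dist_comm, dist_zero_right, EuclideanSpace.norm_single, Real.norm_eq_abs, sq_abs,
    Real.sq_sqrt hη]

theorem step {X κ₀ : Type} [Finite X] [Nonempty X] [Fintype κ₀] (x : X → EuclideanSpace ℝ κ₀)
    (z : EuclideanSpace ℝ κ₀) {η : ℝ} (hη : 0 < η)
    (hX : FR (fun i j : X => dist (x i) (x j) ^ 2)) (r : ℕ) :
    ∃ (κ : Type) (_ : Fintype κ) (P : Type) (_ : Finite P) (_ : Nonempty P)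
      (p : P → EuclideanSpace ℝ κ),
    ∀ c : P → Fin r, ∃ f : Option X → P, (∀ i j, dist (p (f i)) (p (f j)) ^ 2 = DZ x z η i j) ∧
      ∀ i j, c (f i) = c (f j) := by
  classical
  induction r with
  | zero => exact ⟨Unit, inferInstance, Unit, inferInstance, inferInstance, fun _ => 0,
      fun c => (c ()).elim0⟩
  | succ r ih =>
    obtain ⟨κ, _, Q, _, hQ, p, hp⟩ := ih
    have _ := Fintype.ofFinite Q
    have hW : FR (fun a b : Q => dist (p a) (p b) ^ 2 + if a = b then 0 else 2 * η) :=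
      fatten (ClR_euclid p) (fun i => by simp) (fun i j => by rw [dist_comm]) (by linarith)
    have hXW := (hX.comap (Prod.fst : X × Q → X)).add (hW.comap (Prod.snd : X × Q → Q))
    obtain ⟨κ', _, P', _, p', hp'⟩ := hXW (r + 1)
    -- the standard configuration
    let a : X × Q → EuclideanSpace ℝ (κ₀ ⊕ (κ ⊕ Q)) := fun i =>
      joinE (x i.1) (joinE (p i.2) (EuclideanSpace.single i.2 (Real.sqrt η)))
    let a' : Q → EuclideanSpace ℝ (κ₀ ⊕ (κ ⊕ Q)) := fun k => joinE z (joinE (p k) 0)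
    have ha : ∀ i j, dist (a i) (a j) ^ 2 = dist (x i.1) (x j.1) ^ 2
        + (dist (p i.2) (p j.2) ^ 2 + if i.2 = j.2 then 0 else 2 * η) := by
      intro i j
      simp only [a]
      rw [dist_joinE, dist_joinE, dist_single_sq _ _ _ hη.le]
    have ha' : ∀ k l, dist (a' k) (a' l) = dist (p k) (p l) := by
      intro k l
      simp only [a']
      rw [dist_joinE_right, dist_joinE_left]
    have haa' : ∀ k i, dist (a' k) (a (i, k)) ^ 2 = dist z (x i) ^ 2 + η := by
      intro k i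
      simp only [a, a']
      rw [dist_joinE, dist_joinE, dist_self, dist_single_zero_sq _ _ hη.le]
      ring
    obtain ⟨x0⟩ := ‹Nonempty X›
    obtain ⟨q0⟩ := hQ
    have hext : ∀ f : X × Q → P', ∃ b' : Q → EuclideanSpace ℝ (κ' ⊕ (κ₀ ⊕ (κ ⊕ Q))),
        (∀ i j, dist (p' (f i)) (p' (f j)) ^ 2 = dist (a i) (a j) ^ 2) →
        (∀ j k, dist (b' j) (b' k) = dist (a' j) (a' k)) ∧
          ∀ j i, dist (b' j) (joinE (p' (f i)) 0) = dist (a' j) (a i) := by
      intro f
      by_cases h : ∀ i j, dist (p' (f i)) (p' (f j)) ^ 2 = dist (a i) (a j) ^ 2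
      · obtain ⟨b', hb'⟩ := ext_points (x0, q0) a a' (fun i => p' (f i)) (fun i j =>
          ((pow_left_inj₀ dist_nonneg dist_nonneg two_ne_zero).1 (h i j)).symm)
        exact ⟨b', fun _ => hb'⟩
      · exact ⟨fun _ => 0, fun h' => absurd h' h⟩
    choose b' hb' using hext
    refine ⟨κ' ⊕ (κ₀ ⊕ (κ ⊕ Q)), inferInstance, P' ⊕ ((X × Q → P') × Q), inferInstance, ?_,
      Sum.elim (fun y => joinE (p' y) 0) (fun y => b' y.1 y.2), ?_⟩
    · obtain ⟨f, -, -⟩ := hp' (fun _ => 0)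
      exact ⟨Sum.inl (f (x0, q0))⟩
    intro c
    obtain ⟨f, hf, hc⟩ := hp' (fun y => c (Sum.inl y))
    have hf' : ∀ i j, dist (p' (f i)) (p' (f j)) ^ 2 = dist (a i) (a j) ^ 2 := by
      intro i j
      rw [ha]
      exact hf i j
    obtain ⟨hb1, hb2⟩ := hb' f hf'
    by_cases hcase : ∃ k, c (Sum.inr (f, k)) = c (Sum.inl (f (x0, q0)))
    · obtain ⟨k, hk⟩ := hcase
      refine ⟨fun o => match o with
        | none => Sum.inr (f, k)
        | some i => Sum.inl (f (i, k)), ?_, ?_⟩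
      · rintro (_ | i) (_ | j)
        · show dist (b' f k) (b' f k) ^ 2 = 0
          simp
        · show dist (b' f k) (joinE (p' (f (j, k))) 0) ^ 2 = dist z (x j) ^ 2 + η
          rw [hb2, haa']
        · show dist (joinE (p' (f (i, k))) 0) (b' f k) ^ 2 = dist z (x i) ^ 2 + η
          rw [dist_comm, hb2, haa']
        · show dist (joinE (p' (f (i, k))) (0 : EuclideanSpace ℝ (κ₀ ⊕ (κ ⊕ Q))))
            (joinE (p' (f (j, k))) 0) ^ 2 = dist (x i) (x j) ^ 2
          rw [dist_joinE_left, hf', ha]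
          simp
      · have key : ∀ o : Option X, c (match o with
            | none => Sum.inr (f, k)
            | some i => Sum.inl (f (i, k))) = c (Sum.inl (f (x0, q0))) := by
          rintro (_ | i)
          · exact hk
          · exact hc _ _
        intro i j
        exact (key i).trans (key j).symm
    · push Not at hcase
      obtain ⟨g, hg, hgc⟩ := hp (fun k => (finSuccAboveEquiv (c (Sum.inl (f (x0, q0))))).symm
        ⟨c (Sum.inr (f, k)), hcase k⟩)
      refine ⟨fun o => Sum.inr (f, g o), fun i j => ?_, fun i j => ?_⟩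
      · show dist (b' f (g i)) (b' f (g j)) ^ 2 = _
        rw [hb1, ha', hg]
      · have := (finSuccAboveEquiv (c (Sum.inl (f (x0, q0))))).symm.injective (hgc i j)
        exact congrArg Subtype.val this

/-- Ramsey sets have the finite Ramsey property -/
theorem FR_of_ramsey {d : ℕ} {X : Set (EuclideanSpace ℝ (Fin d))} (hfin : X.Finite)
    (h : ∀ r : ℕ, ∃ N : ℕ, ∀ c : EuclideanSpace ℝ (Fin N) → Fin r,
        ∃ g : X → EuclideanSpace ℝ (Fin N), Isometry g ∧ ∀ x y : X, c (g x) = c (g y)) :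
    FR (fun i j : X => dist (i : EuclideanSpace ℝ (Fin d)) j ^ 2) := by
  classical
  intro r
  rcases Nat.eq_zero_or_pos r with hr | hr
  · subst hr
    exact ⟨Unit, inferInstance, Unit, inferInstance, fun _ => 0, fun c => (c ()).elim0⟩
  have hne : NeZero r := ⟨hr.ne'⟩
  have hXf : Finite X := hfin.to_subtype
  obtain ⟨N, hN⟩ := h r
  obtain ⟨F, hF⟩ := compactness (A := EuclideanSpace ℝ (Fin N))
    (B := {g : X → EuclideanSpace ℝ (Fin N) // Isometry g}) r
    (fun g => Set.range g.1) (fun g => Set.finite_range _) (by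
      intro c
      obtain ⟨g, hg, hc⟩ := hN c
      refine ⟨⟨g, hg⟩, ?_⟩
      rintro _ ⟨i, rfl⟩ _ ⟨j, rfl⟩
      exact hc i j)
  let PS : Set (EuclideanSpace ℝ (Fin N)) := ⋃ g ∈ F, Set.range g.1
  have hPS : PS.Finite := F.finite_toSet.biUnion fun g _ => Set.finite_range _
  have hPf : Finite PS := hPS.to_subtype
  refine ⟨Fin N, inferInstance, PS, hPf, Subtype.val, fun c => ?_⟩
  obtain ⟨g, hgF, hg⟩ := hF (fun K => if h : K ∈ PS then c ⟨K, h⟩ else 0)
  have hmem : ∀ i, g.1 i ∈ PS := fun i => Set.mem_biUnion hgF ⟨i, rfl⟩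
  refine ⟨fun i => ⟨g.1 i, hmem i⟩, fun i j => ?_, fun i j => ?_⟩
  · show dist (g.1 i) (g.1 j) ^ 2 = _
    rw [g.2.dist_eq]
    rfl
  · have h := hg _ ⟨i, rfl⟩ _ ⟨j, rfl⟩
    simp only [dif_pos (hmem i), dif_pos (hmem j)] at h
    exact h

theorem dist_succ {d : ℕ} (u v : EuclideanSpace ℝ (Fin (d + 1))) :
    dist u v ^ 2 = ∑ i : Fin d, (u (Fin.castSucc i) - v (Fin.castSucc i)) ^ 2
      + (u (Fin.last d) - v (Fin.last d)) ^ 2 := by
  rw [dist_sq_eq, Fin.sum_univ_castSucc]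

theorem main (d : ℕ) (X : Set (EuclideanSpace ℝ (Fin d))) (z : EuclideanSpace ℝ (Fin (d + 1)))
    (hfin : X.Finite)
    (hX : ∀ r : ℕ, ∃ N : ℕ, ∀ c : EuclideanSpace ℝ (Fin N) → Fin r,
        ∃ g : X → EuclideanSpace ℝ (Fin N), Isometry g ∧ ∀ x y : X, c (g x) = c (g y))
    (hz : z (Fin.last d) ≠ 0) (r : ℕ) :
    ∃ N : ℕ, ∀ c : EuclideanSpace ℝ (Fin N) → Fin r,
        ∃ g : ({y : EuclideanSpace ℝ (Fin (d + 1)) |
                  y (Fin.last d) = 0 ∧ ∃ x ∈ X, ∀ i : Fin d, y (Fin.castSucc i) = x i}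
                ∪ {z} : Set (EuclideanSpace ℝ (Fin (d + 1)))) → EuclideanSpace ℝ (Fin N),
          Isometry g ∧ ∀ x y, c (g x) = c (g y) := by
  classical
  rcases X.eq_empty_or_nonempty with hE | hE
  · subst hE
    refine ⟨0, fun c => ⟨fun _ => 0, ?_, fun _ _ => rfl⟩⟩
    have hsub : ∀ y : ({y : EuclideanSpace ℝ (Fin (d + 1)) |
                  y (Fin.last d) = 0 ∧ ∃ x ∈ (∅ : Set (EuclideanSpace ℝ (Fin d))),
                    ∀ i : Fin d, y (Fin.castSucc i) = x i}
                ∪ {z} : Set (EuclideanSpace ℝ (Fin (d + 1)))), y.1 = z := by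
      rintro ⟨y, hy⟩
      rcases hy with ⟨-, x, hx, -⟩ | hy
      · exact absurd hx (Set.notMem_empty _)
      · exact hy
    refine Isometry.of_dist_eq fun y y' => ?_
    rw [Subtype.dist_eq, hsub y, hsub y', dist_self, dist_self]
  have hXn : Nonempty X := hE.to_subtype
  have hXf : Finite X := hfin.to_subtype
  have hFR := FR_of_ramsey hfin hX
  let z' : EuclideanSpace ℝ (Fin d) := WithLp.toLp 2 (fun i => z (Fin.castSucc i))
  obtain ⟨κ, _, P, _, _, p, hp⟩ := step (fun i : X => (i : EuclideanSpace ℝ (Fin d))) z'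
    (η := z (Fin.last d) ^ 2) (by positivity) hFR r
  let e : κ ≃ Fin (Fintype.card κ) := Fintype.equivFin κ
  let E : EuclideanSpace ℝ κ ≃ₗᵢ[ℝ] EuclideanSpace ℝ (Fin (Fintype.card κ)) :=
    LinearIsometryEquiv.piLpCongrLeft 2 ℝ ℝ e
  refine ⟨Fintype.card κ, fun c => ?_⟩
  obtain ⟨f, hf, hc⟩ := hp (fun y => c (E (p y)))
  -- labels
  have hlab : ∀ y : ({y : EuclideanSpace ℝ (Fin (d + 1)) |
                  y (Fin.last d) = 0 ∧ ∃ x ∈ X, ∀ i : Fin d, y (Fin.castSucc i) = x i}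
                ∪ {z} : Set (EuclideanSpace ℝ (Fin (d + 1)))),
      ∃ o : Option X, (o = none ∧ y.1 = z) ∨
        ∃ x : X, o = some x ∧ y.1 (Fin.last d) = 0 ∧ ∀ i : Fin d, y.1 (Fin.castSucc i) = x.1 i := by
    rintro ⟨y, hy⟩
    rcases hy with ⟨h0, x, hx, hxi⟩ | hy
    · exact ⟨some ⟨x, hx⟩, Or.inr ⟨⟨x, hx⟩, rfl, h0, hxi⟩⟩
    · exact ⟨none, Or.inl ⟨rfl, hy⟩⟩
  choose o ho using hlab
  refine ⟨fun y => E (p (f (o y))), ?_, fun y y' => hc _ _⟩
  refine Isometry.of_dist_eq fun y y' => ?_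
  rw [E.isometry.dist_eq]
  refine (pow_left_inj₀ dist_nonneg dist_nonneg two_ne_zero).1 ?_
  rw [hf, Subtype.dist_eq, dist_succ]
  rcases ho y with ⟨h1, h2⟩ | ⟨x, h1, h2, h3⟩
  · rcases ho y' with ⟨h1', h2'⟩ | ⟨x', h1', h2', h3'⟩
    · rw [h1, h1', h2, h2']
      simp [DZ]
    · rw [h1, h1', h2, h2']
      show dist z' (x' : EuclideanSpace ℝ (Fin d)) ^ 2 + z (Fin.last d) ^ 2 = _
      rw [dist_sq_eq, sub_zero]
      congr 1
      refine Finset.sum_congr rfl fun i _ => ?_
      rw [h3']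
  · rcases ho y' with ⟨h1', h2'⟩ | ⟨x', h1', h2', h3'⟩
    · rw [h1, h1', h2, h2']
      show dist z' (x : EuclideanSpace ℝ (Fin d)) ^ 2 + z (Fin.last d) ^ 2 = _
      rw [dist_sq_eq, zero_sub, neg_sq]
      congr 1
      refine Finset.sum_congr rfl fun i _ => ?_
      rw [h3]
      simp only [z']
      ring
    · rw [h1, h1', h2, h2']
      show dist (x : EuclideanSpace ℝ (Fin d)) (x' : EuclideanSpace ℝ (Fin d)) ^ 2 = _
      rw [dist_sq_eq, sub_zero, zero_pow two_ne_zero, add_zero]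
      refine Finset.sum_congr rfl fun i _ => ?_
      rw [h3, h3']

end Pool.Agent.H248.ER
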