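import Pool.Agent.H248.ER.Basic

/-!
# Spread vectors: the squared distance `(t i - t j)^2` on a line is a limit of Ramsey ones
-/

set_option autoImplicit false

namespace Pool.Agent.H248.ER

open scoped BigOperators

noncomputable def tn (n : ℕ) (y : ℝ) : ℝ := max 0 (min y (n - y))

noncomputable def q (n : ℕ) (J : Finset ℕ) (x : ℕ) : ℝ :=
  if x ∈ J then tn n ((J.filter (· < x)).card : ℝ) else 0

theorem q_not {n : ℕ} {J : Finset ℕ} {x : ℕ} (h : x ∉ J) : q n J x = 0 := by
  rw [q, if_neg h]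

theorem q_image {n : ℕ} {J : Finset ℕ} {x : ℕ} {φ : ℕ → ℕ} (hφ : StrictMono φ) :
    q n (J.image φ) (φ x) = q n J x := by
  classical
  rw [q, q]
  have h1 : φ x ∈ J.image φ ↔ x ∈ J := by
    rw [Finset.mem_image]
    constructor
    · rintro ⟨y, hy, hyx⟩
      rwa [← hφ.injective hyx]
    · intro h
      exact ⟨x, h, rfl⟩
  have h2 : (J.image φ).filter (· < φ x) = (J.filter (· < x)).image φ := by
    ext y
    simp only [Finset.mem_filter, Finset.mem_image]
    constructor
    · rintro ⟨⟨z, hz, rfl⟩, hlt⟩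
      exact ⟨z, ⟨hz, hφ.lt_iff_lt.1 hlt⟩, rfl⟩
    · rintro ⟨z, ⟨hz, hlt⟩, rfl⟩
      exact ⟨⟨z, hz, rfl⟩, hφ hlt⟩
  rw [h2, Finset.card_image_of_injective _ hφ.injective]
  by_cases hx : x ∈ J
  · rw [if_pos (h1.2 hx), if_pos hx]
  · rw [if_neg (fun h => hx (h1.1 h)), if_neg hx]

theorem spread_FR {ι : Type} [Finite ι] (n : ℕ) (J : ι → Finset ℕ) (hJ : ∀ i, (J i).card = n) :
    FR (fun i j => ∑ x ∈ J i ∪ J j, (q n (J i) x - q n (J j) x) ^ 2) := by
  classical
  intro r
  rcases Nat.eq_zero_or_pos r with hr | hr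
  · subst hr
    exact ⟨Unit, inferInstance, Unit, inferInstance, fun _ => 0, fun c => (c ()).elim0⟩
  have hne : NeZero r := ⟨hr.ne'⟩
  obtain ⟨F, hF⟩ := compactness (A := Finset ℕ) (B := {φ : ℕ → ℕ // StrictMono φ}) r
    (fun φ => Set.range (fun i => (J i).image φ.1)) (fun φ => Set.finite_range _) (by
      intro c
      obtain ⟨H, y, hH, hc⟩ := Pool.Agent.H330.infinite_ramsey (A := ℕ) (C := Fin r) n c
      have : Infinite H := hH.to_subtype
      let e := Nat.Subtype.orderIsoOfNat H
      have hmono : StrictMono (fun x => (e x : ℕ)) := fun a b hab => e.strictMono hab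
      refine ⟨⟨fun x => (e x : ℕ), hmono⟩, ?_⟩
      have key : ∀ i, c ((J i).image (fun x => (e x : ℕ))) = y := by
        intro i
        refine hc _ ?_ ?_
        · rw [Finset.card_image_of_injective _ hmono.injective, hJ]
        · intro z hz
          rw [Finset.coe_image] at hz
          obtain ⟨w, -, rfl⟩ := hz
          exact (e w).2
      rintro _ ⟨i, rfl⟩ _ ⟨j, rfl⟩
      rw [key, key])
  let PS : Set (Finset ℕ) := ⋃ φ ∈ F, Set.range (fun i => (J i).image φ.1)
  have hPS : PS.Finite := F.finite_toSet.biUnion fun φ _ => Set.finite_range _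
  have hfin : Finite PS := hPS.to_subtype
  obtain ⟨M, hM⟩ : ∃ M : ℕ, ∀ K ∈ PS, K ⊆ Finset.range M := by
    refine ⟨(hPS.toFinset.sup (fun K => K.sup id)) + 1, fun K hK x hx => ?_⟩
    rw [Finset.mem_range]
    have h1 : x ≤ K.sup id := Finset.le_sup (f := id) hx
    have h2 : K.sup id ≤ hPS.toFinset.sup (fun K => K.sup id) :=
      Finset.le_sup (f := fun K : Finset ℕ => K.sup id) (hPS.mem_toFinset.2 hK)
    omega
  refine ⟨Fin M, inferInstance, PS, hfin, fun K => WithLp.toLp 2 (fun x => q n K.1 x), fun c => ?_⟩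
  obtain ⟨φ, hφF, hφ⟩ := hF (fun K => if h : K ∈ PS then c ⟨K, h⟩ else 0)
  have hmem : ∀ i, (J i).image φ.1 ∈ PS := fun i =>
    Set.mem_biUnion hφF ⟨i, rfl⟩
  refine ⟨fun i => ⟨(J i).image φ.1, hmem i⟩, fun i j => ?_, fun i j => ?_⟩
  · rw [dist_sq_eq]
    have h1 : ∑ x : Fin M, (q n ((J i).image φ.1) x - q n ((J j).image φ.1) x) ^ 2
        = ∑ x ∈ Finset.range M, (q n ((J i).image φ.1) x - q n ((J j).image φ.1) x) ^ 2 := by
      rw [← Fin.sum_univ_eq_sum_range
        (fun x => (q n ((J i).image φ.1) x - q n ((J j).image φ.1) x) ^ 2) M]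
    have h2 : ∑ x ∈ Finset.range M, (q n ((J i).image φ.1) x - q n ((J j).image φ.1) x) ^ 2
        = ∑ x ∈ (J i ∪ J j).image φ.1,
          (q n ((J i).image φ.1) x - q n ((J j).image φ.1) x) ^ 2 := by
      symm
      refine Finset.sum_subset ?_ ?_
      · rw [Finset.image_union]
        exact Finset.union_subset (hM _ (hmem i)) (hM _ (hmem j))
      · intro x _ hx
        rw [Finset.image_union, Finset.mem_union, not_or] at hx
        rw [q_not hx.1, q_not hx.2]
        norm_num
    have h3 : ∑ x ∈ (J i ∪ J j).image φ.1,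
          (q n ((J i).image φ.1) x - q n ((J j).image φ.1) x) ^ 2
        = ∑ x ∈ J i ∪ J j, (q n (J i) x - q n (J j) x) ^ 2 := by
      rw [Finset.sum_image (fun a _ b _ h => φ.2.injective h)]
      refine Finset.sum_congr rfl fun x _ => ?_
      rw [q_image φ.2, q_image φ.2]
    exact h1.trans (h2.trans h3)
  · have h := hφ _ ⟨i, rfl⟩ _ ⟨j, rfl⟩
    simp only [dif_pos (hmem i), dif_pos (hmem j)] at h
    exact h

theorem q_Ico (n τ x : ℕ) : q n (Finset.Ico τ (τ + n)) x = tn n ((x : ℝ) - τ) := by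
  rw [q]
  by_cases hx : x ∈ Finset.Ico τ (τ + n)
  · rw [if_pos hx]
    rw [Finset.mem_Ico] at hx
    have h1 : (Finset.Ico τ (τ + n)).filter (· < x) = Finset.Ico τ x := by
      ext y
      simp only [Finset.mem_filter, Finset.mem_Ico]
      omega
    rw [h1, Nat.card_Ico, Nat.cast_sub hx.1]
  · rw [if_neg hx]
    rw [Finset.mem_Ico] at hx
    rw [tn]
    symm
    apply max_eq_left
    rcases Nat.lt_or_ge x τ with h | h
    · have : (x : ℝ) < τ := by exact_mod_cast h
      exact (min_le_left _ _).trans (by linarith)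
    · have h2 : τ + n ≤ x := by
        by_contra h3
        exact hx ⟨h, by omega⟩
      have : (τ : ℝ) + n ≤ x := by exact_mod_cast h2
      exact (min_le_right _ _).trans (by linarith)

theorem tn_lip (n : ℕ) (y z : ℝ) : |tn n y - tn n z| ≤ |y - z| := by
  rw [tn, tn]
  have h1 := abs_max_sub_max_le_max (0 : ℝ) (min y (n - y)) 0 (min z (n - z))
  rw [sub_self, abs_zero, max_eq_right (abs_nonneg (min y (n - y) - min z (n - z)))] at h1
  refine h1.trans ?_
  refine (abs_min_sub_min_le_max _ _ _ _).trans ?_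
  rw [show (n : ℝ) - y - (n - z) = -(y - z) by ring, abs_neg, max_self]

/-- the distance of two shifted tents -/
theorem tent_bounds (m a b : ℕ) (hab : a ≤ b) :
    |(∑ x ∈ Finset.Ico a (a + 2 * m) ∪ Finset.Ico b (b + 2 * m),
      (q (2 * m) (Finset.Ico a (a + 2 * m)) x - q (2 * m) (Finset.Ico b (b + 2 * m)) x) ^ 2)
      - 2 * m * ((b : ℝ) - a) ^ 2| ≤ 2 * ((b : ℝ) - a) ^ 3 := by
  have hΔ : (0 : ℝ) ≤ (b : ℝ) - a := by
    have : (a : ℝ) ≤ b := by exact_mod_cast hab
    linarith
  rw [abs_le]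
  constructor
  · -- lower bound
    have hsub : Finset.Ico b (a + m) ∪ Finset.Ico (b + m) (a + 2 * m) ⊆
        Finset.Ico a (a + 2 * m) ∪ Finset.Ico b (b + 2 * m) := by
      intro x hx
      simp only [Finset.mem_union, Finset.mem_Ico] at hx ⊢
      omega
    have hdisj : Disjoint (Finset.Ico b (a + m)) (Finset.Ico (b + m) (a + 2 * m)) := by
      rw [Finset.disjoint_left]
      intro x hx hx'
      simp only [Finset.mem_Ico] at hx hx'
      omega
    have h1 : ∑ x ∈ Finset.Ico b (a + m) ∪ Finset.Ico (b + m) (a + 2 * m), ((b : ℝ) - a) ^ 2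
        ≤ ∑ x ∈ Finset.Ico a (a + 2 * m) ∪ Finset.Ico b (b + 2 * m),
      (q (2 * m) (Finset.Ico a (a + 2 * m)) x - q (2 * m) (Finset.Ico b (b + 2 * m)) x) ^ 2 := by
      refine le_trans (Finset.sum_le_sum fun x hx => ?_)
        (Finset.sum_le_sum_of_subset_of_nonneg hsub fun x _ _ => sq_nonneg _)
      rw [q_Ico, q_Ico]
      simp only [Finset.mem_union, Finset.mem_Ico] at hx
      rcases hx with hx | hx
      · have e1 : (b : ℝ) ≤ x := by exact_mod_cast hx.1
        have e2 : (x : ℝ) ≤ a + m := by exact_mod_cast hx.2.le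
        have t1 : tn (2 * m) ((x : ℝ) - a) = (x : ℝ) - a := by
          rw [tn, min_eq_left, max_eq_right]
          · linarith
          · push_cast
            linarith
        have t2 : tn (2 * m) ((x : ℝ) - b) = (x : ℝ) - b := by
          rw [tn, min_eq_left, max_eq_right]
          · linarith
          · push_cast
            linarith
        rw [t1, t2]
        apply le_of_eq
        ring
      · have e1 : (b : ℝ) + m ≤ x := by exact_mod_cast hx.1
        have e2 : (x : ℝ) ≤ a + 2 * m := by exact_mod_cast hx.2.le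
        have t1 : tn (2 * m) ((x : ℝ) - a) = 2 * m - ((x : ℝ) - a) := by
          rw [tn, min_eq_right, max_eq_right]
          · push_cast
            ring
          · push_cast
            linarith
          · push_cast
            linarith
        have t2 : tn (2 * m) ((x : ℝ) - b) = 2 * m - ((x : ℝ) - b) := by
          rw [tn, min_eq_right, max_eq_right]
          · push_cast
            ring
          · push_cast
            linarith
          · push_cast
            linarith
        rw [t1, t2]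
        apply le_of_eq
        ring
    have h2 : ∑ x ∈ Finset.Ico b (a + m) ∪ Finset.Ico (b + m) (a + 2 * m), ((b : ℝ) - a) ^ 2
        ≥ (2 * m - 2 * ((b : ℝ) - a)) * ((b : ℝ) - a) ^ 2 := by
      rw [Finset.sum_const, nsmul_eq_mul, Finset.card_union_of_disjoint hdisj, Nat.card_Ico,
        Nat.card_Ico]
      have h3 : (2 * m - 2 * ((b : ℝ) - a)) ≤ ((a + m - b + (a + 2 * m - (b + m)) : ℕ) : ℝ) := by
        have h4 : (2 * m + 2 * a : ℕ) ≤ (a + m - b + (a + 2 * m - (b + m))) + 2 * b := by omega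
        have h5 : ((2 * m + 2 * a : ℕ) : ℝ) ≤ (((a + m - b + (a + 2 * m - (b + m))) + 2 * b : ℕ) : ℝ) := by
          exact_mod_cast h4
        push_cast at h5 ⊢
        linarith
      exact mul_le_mul_of_nonneg_right h3 (sq_nonneg _)
    nlinarith [h1, h2]
  · -- upper bound
    have h1 : ∑ x ∈ Finset.Ico a (a + 2 * m) ∪ Finset.Ico b (b + 2 * m),
      (q (2 * m) (Finset.Ico a (a + 2 * m)) x - q (2 * m) (Finset.Ico b (b + 2 * m)) x) ^ 2
        ≤ ∑ x ∈ Finset.Ico a (b + 2 * m), ((b : ℝ) - a) ^ 2 := by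
      refine le_trans (Finset.sum_le_sum (g := fun _ => ((b : ℝ) - a) ^ 2) fun x _ => ?_)
        (Finset.sum_le_sum_of_subset_of_nonneg ?_ fun x _ _ => sq_nonneg _)
      · rw [q_Ico, q_Ico]
        have := tn_lip (2 * m) ((x : ℝ) - a) ((x : ℝ) - b)
        rw [show (x : ℝ) - a - ((x : ℝ) - b) = (b : ℝ) - a by ring] at this
        exact sq_le_sq.2 this
      · intro x hx
        simp only [Finset.mem_union, Finset.mem_Ico] at hx ⊢
        omega
    rw [Finset.sum_const, nsmul_eq_mul, Nat.card_Ico] at h1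
    have h2 : ((b + 2 * m - a : ℕ) : ℝ) = 2 * m + ((b : ℝ) - a) := by
      rw [Nat.cast_sub (by omega)]
      push_cast
      ring
    rw [h2] at h1
    nlinarith [h1, mul_nonneg hΔ (sq_nonneg ((b : ℝ) - a))]

end Pool.Agent.H248.ER
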